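import Pool.Agent.L5helper7.RT.Defs

/-!
# The expectation operators (MP_e3f158_nt.RandomThresholds, helper lemmas)
-/

set_option autoImplicit false

namespace Pool.Agent.L5helper30.RT

open Pool.Agent.L5helper7.RT Finset

theorem ex_mono (ρ : ℕ → ℝ) (hρ : ∀ m, 0 ≤ ρ m ∧ ρ m ≤ 1) (s k : ℕ) (g g' : Finset ℕ → ℝ) (T : Finset ℕ)
    (h : ∀ U : Finset ℕ, U ⊆ Finset.Ioc s (s + k) → (∀ m ∈ U, ρ m ≠ 0) → g (T ∪ U) ≤ g' (T ∪ U)) :
    Ex ρ s k g T ≤ Ex ρ s k g' T := by
  induction k generalizing s T with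
  | zero =>
    have h1 := h ∅ (empty_subset _) (fun m hm => absurd hm (notMem_empty m))
    simpa [Ex] using h1
  | succ k ih =>
    rw [Ex, Ex]
    have h0 := hρ (s + 1)
    have h2 : (1 - ρ (s + 1)) * Ex ρ (s + 1) k g T ≤ (1 - ρ (s + 1)) * Ex ρ (s + 1) k g' T := by
      apply mul_le_mul_of_nonneg_left _ (by linarith [h0.2])
      apply ih
      intro U hU hne
      apply h U _ hne
      refine hU.trans fun m hm => ?_
      rw [mem_Ioc] at hm ⊢
      omega
    have h1 : ρ (s + 1) * Ex ρ (s + 1) k g (insert (s + 1) T) ≤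
        ρ (s + 1) * Ex ρ (s + 1) k g' (insert (s + 1) T) := by
      by_cases hz : ρ (s + 1) = 0
      · rw [hz, zero_mul, zero_mul]
      · apply mul_le_mul_of_nonneg_left _ h0.1
        apply ih
        intro U hU hne
        have e : insert (s + 1) T ∪ U = T ∪ insert (s + 1) U := by
          ext m
          simp only [mem_union, mem_insert]
          tauto
        rw [e]
        apply h
        · intro m hm
          rw [mem_insert] at hm
          rcases hm with rfl | hm
          · rw [mem_Ioc]; omega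
          · have := hU hm
            rw [mem_Ioc] at this ⊢
            omega
        · intro m hm
          rw [mem_insert] at hm
          rcases hm with rfl | hm
          · exact hz
          · exact hne m hm
    linarith

theorem ex_add (ρ : ℕ → ℝ) (s k l : ℕ) (g : Finset ℕ → ℝ) (T : Finset ℕ) :
    Ex ρ s (k + l) g T = Ex ρ s k (fun T' => Ex ρ (s + k) l g T') T := by
  induction k generalizing s T with
  | zero => rw [Nat.zero_add, Ex, Nat.add_zero]
  | succ k ih =>
    have e1 : k + 1 + l = (k + l) + 1 := by omega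
    have e2 : s + (k + 1) = s + 1 + k := by omega
    rw [e1, Ex, Ex, ih, ih, e2]

theorem ex_const (ρ : ℕ → ℝ) (s k : ℕ) (c : ℝ) (T : Finset ℕ) : Ex ρ s k (fun _ => c) T = c := by
  induction k generalizing s T with
  | zero => rw [Ex]
  | succ k ih => rw [Ex, ih, ih]; ring

theorem ex_lin (ρ : ℕ → ℝ) (s k : ℕ) (a b : ℝ) (g g' : Finset ℕ → ℝ) (T : Finset ℕ) :
    Ex ρ s k (fun T' => a * g T' + b * g' T') T = a * Ex ρ s k g T + b * Ex ρ s k g' T := by
  induction k generalizing s T with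
  | zero => rw [Ex, Ex, Ex]
  | succ k ih => rw [Ex, Ex, Ex, ih, ih]; ring

theorem ex_card (ρ : ℕ → ℝ) (s k : ℕ) (φ : ℕ → ℝ) (T : Finset ℕ) (hT : T ⊆ Finset.Icc 1 s) :
    Ex ρ s k (fun T' => φ T'.card) T = Ec ρ s k φ T.card := by
  induction k generalizing s T with
  | zero => rw [Ex, Ec]
  | succ k ih =>
    have h1 : s + 1 ∉ T := by
      intro h
      have := hT h
      rw [mem_Icc] at this
      omega
    have h2 : T ⊆ Icc 1 (s + 1) := by
      intro m hm
      have := hT hm
      rw [mem_Icc] at this ⊢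
      omega
    have h3 : insert (s + 1) T ⊆ Icc 1 (s + 1) := by
      intro m hm
      rw [mem_insert] at hm
      rcases hm with rfl | hm
      · rw [mem_Icc]; omega
      · exact h2 hm
    rw [Ex, Ec, AO, ih _ _ h3, ih _ _ h2, card_insert_of_notMem h1]

theorem ex_le_const (ρ : ℕ → ℝ) (hρ : ∀ m, 0 ≤ ρ m ∧ ρ m ≤ 1) (s k : ℕ) (g : Finset ℕ → ℝ) (c : ℝ)
    (T : Finset ℕ)
    (h : ∀ U : Finset ℕ, U ⊆ Finset.Ioc s (s + k) → (∀ m ∈ U, ρ m ≠ 0) → g (T ∪ U) ≤ c) :
    Ex ρ s k g T ≤ c := by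
  have h1 := ex_mono ρ hρ s k g (fun _ => c) T h
  rwa [ex_const] at h1

theorem ex_mul (ρ : ℕ → ℝ) (s k : ℕ) (a : ℝ) (g : Finset ℕ → ℝ) (T : Finset ℕ) :
    Ex ρ s k (fun T' => a * g T') T = a * Ex ρ s k g T := by
  have h := ex_lin ρ s k a 0 g g T
  simpa using h

open Classical in
theorem trials (ρ : ℕ → ℝ) (hρ : ∀ m, 0 ≤ ρ m ∧ ρ m ≤ 1) (n N : ℕ) (hnN : n ≤ N) (p : ℝ) (hp0 : 0 ≤ p)
    (hp1 : p ≤ 1) (T0 : Finset ℕ) (hT0 : T0 ⊆ Finset.Icc 1 n)
    (M : ℕ) (s v : ℕ → ℕ) (hs0 : ∀ i < M, n ≤ s i) (hsv : ∀ i < M, s i ≤ v i)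
    (hvs : ∀ i, i + 1 < M → v i ≤ s (i + 1)) (hN : ∀ i < M, v i ≤ N)
    (F : ℕ → Finset ℕ → Prop)
    (hloc : ∀ i < M, ∀ T U : Finset ℕ, (∀ m ∈ U, v i < m) → (F i (T ∪ U) ↔ F i T))
    (htrial : ∀ i < M, ∀ U : Finset ℕ, U ⊆ Finset.Ioc n (s i) → (∀ m ∈ U, ρ m ≠ 0) →
      Ex ρ (s i) (v i - s i) (fun T' => if F i T' then 0 else 1) (T0 ∪ U) ≤ 1 - p) :
    Ex ρ n (N - n) (fun T' => if ∃ i < M, F i T' then 0 else 1) T0 ≤ (1 - p) ^ M := by
  clear hT0
  induction M generalizing N with
  | zero =>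
    rw [pow_zero]
    apply ex_le_const ρ hρ
    intro U _ _
    split_ifs <;> norm_num
  | succ M ih =>
    have hM : M < M + 1 := Nat.lt_succ_self M
    have hsn := hs0 M hM
    have hsM := hsv M hM
    have hvN := hN M hM
    -- the earlier intervals end before `s M`
    have hchain : ∀ j, j ≤ M → ∀ i, i < j → v i ≤ s j := by
      intro j
      induction j with
      | zero => intro _ i hi; omega
      | succ j ihj =>
        intro hj i hi
        rcases Nat.lt_or_ge i j with h | h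
        · exact (ihj (by omega) i h).trans ((hsv j (by omega)).trans (hvs j (by omega)))
        · have : i = j := by omega
          subst this
          exact hvs i (by omega)
    have hch := hchain M le_rfl
    have IH := ih (s M) hsn (fun i hi => hs0 i (by omega)) (fun i hi => hsv i (by omega))
      (fun i hi => hvs i (by omega)) (fun i hi => hch i hi)
      (fun i hi => hloc i (by omega)) (fun i hi => htrial i (by omega))
    have e1 : N - n = (s M - n) + ((v M - s M) + (N - v M)) := by omega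
    rw [e1, ex_add]
    have e2 : n + (s M - n) = s M := by omega
    rw [e2]
    have key : ∀ U : Finset ℕ, U ⊆ Finset.Ioc n (n + (s M - n)) → (∀ m ∈ U, ρ m ≠ 0) →
        Ex ρ (s M) ((v M - s M) + (N - v M)) (fun T' => if ∃ i < M + 1, F i T' then (0 : ℝ) else 1) (T0 ∪ U) ≤
        (1 - p) * (if ∃ i < M, F i (T0 ∪ U) then (0 : ℝ) else 1) := by
      intro U hU hne
      rw [e2] at hU
      rw [ex_add]
      have e3 : s M + (v M - s M) = v M := by omega
      rw [e3]
      have h1 : Ex ρ (s M) (v M - s M) (fun T' => Ex ρ (v M) (N - v M)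
            (fun T' => if ∃ i < M + 1, F i T' then (0 : ℝ) else 1) T') (T0 ∪ U) ≤
          Ex ρ (s M) (v M - s M) (fun T' => (if ∃ i < M, F i (T0 ∪ U) then (0 : ℝ) else 1) *
            (if F M T' then (0 : ℝ) else 1)) (T0 ∪ U) := by
        apply ex_mono ρ hρ
        intro V hV _
        rw [e3] at hV
        apply ex_le_const ρ hρ
        intro W hW _
        have hW' : ∀ m ∈ W, v M < m := fun m hm => (mem_Ioc.1 (hW hm)).1
        have hV' : ∀ m ∈ V, s M < m := fun m hm => (mem_Ioc.1 (hV hm)).1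
        have hFM : F M (T0 ∪ U ∪ V ∪ W) ↔ F M (T0 ∪ U ∪ V) := hloc M hM _ _ hW'
        have hFi : ∀ i < M, (F i (T0 ∪ U ∪ V ∪ W) ↔ F i (T0 ∪ U)) := by
          intro i hi
          rw [union_assoc (T0 ∪ U) V W]
          apply hloc i (by omega)
          intro m hm
          rcases mem_union.1 hm with h | h
          · exact lt_of_le_of_lt (hch i hi) (hV' m h)
          · exact lt_of_le_of_lt ((hch i hi).trans hsM) (hW' m h)
        by_cases hc : ∃ i < M, F i (T0 ∪ U)
        · have hc' : ∃ i < M + 1, F i (T0 ∪ U ∪ V ∪ W) := by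
            obtain ⟨i, hi, hF⟩ := hc
            exact ⟨i, by omega, (hFi i hi).2 hF⟩
          rw [if_pos hc', if_pos hc, zero_mul]
        · rw [if_neg hc, one_mul]
          by_cases hcM : F M (T0 ∪ U ∪ V)
          · rw [if_pos ⟨M, hM, hFM.2 hcM⟩, if_pos hcM]
          · rw [if_neg hcM]
            split_ifs <;> norm_num
      refine h1.trans ?_
      rw [ex_mul, mul_comm]
      apply mul_le_mul_of_nonneg_right (htrial M hM U hU hne)
      split_ifs <;> norm_num
    refine (ex_mono ρ hρ n (s M - n) _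
      (fun T' => (1 - p) * (if ∃ i < M, F i T' then (0 : ℝ) else 1)) T0 key).trans ?_
    rw [ex_mul, pow_succ, mul_comm]
    exact mul_le_mul_of_nonneg_right IH (by linarith)

end Pool.Agent.L5helper30.RT
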