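import Pool.Agent.L5helper30.RT.ExLemmas

/-!
# Independent events and the expectation operators (MP_e3f158_nt.RandomThresholds, helper lemmas)
-/

set_option autoImplicit false

namespace Pool.Agent.L5helper30.RT

open Pool.Agent.L5helper7.RT MeasureTheory ProbabilityTheory

section
variable {Ω : Type*}

open Classical in
/-- an event described by the sets `A m`, `m ∈ I` -/
theorem meas_filter (m' : MeasurableSpace Ω) (A : ℕ → Set Ω) (I : Finset ℕ)
    (hA : ∀ m ∈ I, MeasurableSet[m'] (A m)) (B : Finset ℕ → Prop) :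
    MeasurableSet[m'] {ω | B (I.filter (fun m => ω ∈ A m))} := by
  induction I using Finset.induction_on generalizing B with
  | empty =>
    by_cases h : B ∅
    · simp [h]
    · simp [h]
  | insert a I ha ih =>
    have e : {ω | B ((insert a I).filter (fun m => ω ∈ A m))} =
        (A a ∩ {ω | B (insert a (I.filter (fun m => ω ∈ A m)))}) ∪
          ((A a)ᶜ ∩ {ω | B (I.filter (fun m => ω ∈ A m))}) := by
      ext ω
      simp only [Set.mem_setOf_eq, Set.mem_union, Set.mem_inter_iff, Set.mem_compl_iff]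
      rw [Finset.filter_insert]
      by_cases h : ω ∈ A a
      · simp [h]
      · simp [h]
    rw [e]
    have h1 := hA a (Finset.mem_insert_self _ _)
    have h2 : ∀ m ∈ I, MeasurableSet[m'] (A m) := fun m hm => hA m (Finset.mem_insert_of_mem hm)
    exact (h1.inter (ih h2 (fun T => B (insert a T)))).union (h1.compl.inter (ih h2 B))

variable [MeasurableSpace Ω] (μ : Measure Ω) [IsProbabilityMeasure μ] (A : ℕ → Set Ω)

theorem prob01 (m : ℕ) : 0 ≤ (μ (A m)).toReal ∧ (μ (A m)).toReal ≤ 1 := by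
  refine ⟨ENNReal.toReal_nonneg, ?_⟩
  have h := prob_le_one (μ := μ) (s := A m)
  have := ENNReal.toReal_mono ENNReal.one_ne_top h
  simpa using this

open Classical in
theorem prob_ex_gen (hA : ∀ m, MeasurableSet (A m)) (hind : iIndepSet A μ) (s k : ℕ) (B : Finset ℕ → Prop)
    (T : Finset ℕ) :
    (μ {ω | B (T ∪ (Finset.Ioc s (s + k)).filter (fun m => ω ∈ A m))}).toReal =
      Ex (fun m => (μ (A m)).toReal) s k (fun T => if B T then 1 else 0) T := by
  induction k generalizing s T with
  | zero =>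
    rw [Ex]
    simp only [Nat.add_zero, Finset.Ioc_self, Finset.filter_empty, Finset.union_empty]
    by_cases h : B T
    · simp [h]
    · simp [h]
  | succ k ih =>
    rw [Ex]
    obtain ⟨E1, hE1⟩ : ∃ E : Set Ω, E = {ω | B (insert (s + 1) T ∪
      (Finset.Ioc (s + 1) (s + 1 + k)).filter (fun m => ω ∈ A m))} := ⟨_, rfl⟩
    obtain ⟨E0, hE0⟩ : ∃ E : Set Ω, E = {ω | B (T ∪
      (Finset.Ioc (s + 1) (s + 1 + k)).filter (fun m => ω ∈ A m))} := ⟨_, rfl⟩
    have ih1 := ih (s + 1) (insert (s + 1) T)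
    have ih0 := ih (s + 1) T
    rw [← hE1] at ih1
    rw [← hE0] at ih0
    rw [← ih1, ← ih0]
    have hI : Finset.Ioc s (s + (k + 1)) = insert (s + 1) (Finset.Ioc (s + 1) (s + 1 + k)) := by
      ext m
      simp only [Finset.mem_Ioc, Finset.mem_insert]
      omega
    have hE : {ω | B (T ∪ (Finset.Ioc s (s + (k + 1))).filter (fun m => ω ∈ A m))} =
        (A (s + 1) ∩ E1) ∪ ((A (s + 1))ᶜ ∩ E0) := by
      rw [hE1, hE0, hI]
      ext ω
      simp only [Set.mem_setOf_eq, Set.mem_union, Set.mem_inter_iff, Set.mem_compl_iff]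
      rw [Finset.filter_insert]
      by_cases h : ω ∈ A (s + 1)
      · simp [h]
      · simp [h]
    -- measurability
    have hgen := iIndepSet.indep_generateFrom_of_disjoint hA hind {s + 1}
      (Finset.Ioc (s + 1) (s + 1 + k) : Finset ℕ) (by
        rw [Set.disjoint_singleton_left]
        intro h
        rw [Finset.mem_coe, Finset.mem_Ioc] at h
        omega)
    rw [Indep_iff] at hgen
    have hmA : MeasurableSet[MeasurableSpace.generateFrom {t | ∃ n ∈ ({s + 1} : Set ℕ), A n = t}] (A (s + 1)) :=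
      MeasurableSpace.measurableSet_generateFrom ⟨s + 1, rfl, rfl⟩
    have hmI : ∀ m ∈ Finset.Ioc (s + 1) (s + 1 + k),
        MeasurableSet[MeasurableSpace.generateFrom {t | ∃ n ∈ ((Finset.Ioc (s + 1) (s + 1 + k) : Finset ℕ) : Set ℕ),
          A n = t}] (A m) := fun m hm =>
      MeasurableSpace.measurableSet_generateFrom ⟨m, hm, rfl⟩
    have hm1 : MeasurableSet[MeasurableSpace.generateFrom {t | ∃ n ∈ ((Finset.Ioc (s + 1) (s + 1 + k) :
        Finset ℕ) : Set ℕ), A n = t}] E1 := by
      rw [hE1]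
      exact meas_filter _ A _ hmI (fun U => B (insert (s + 1) T ∪ U))
    have hm0 : MeasurableSet[MeasurableSpace.generateFrom {t | ∃ n ∈ ((Finset.Ioc (s + 1) (s + 1 + k) :
        Finset ℕ) : Set ℕ), A n = t}] E0 := by
      rw [hE0]
      exact meas_filter _ A _ hmI (fun U => B (T ∪ U))
    have hM1 : MeasurableSet E1 := by
      rw [hE1]
      exact meas_filter _ A _ (fun m _ => hA m) (fun U => B (insert (s + 1) T ∪ U))
    have hM0 : MeasurableSet E0 := by
      rw [hE0]
      exact meas_filter _ A _ (fun m _ => hA m) (fun U => B (T ∪ U))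
    have h1 := hgen _ _ hmA hm1
    have h0 := hgen _ _ hmA.compl hm0
    rw [hE, measure_union _ ((hA _).compl.inter hM0), h1, h0, prob_compl_eq_one_sub (hA _)]
    · rw [ENNReal.toReal_add (ENNReal.mul_ne_top (measure_ne_top _ _) (measure_ne_top _ _))
        (ENNReal.mul_ne_top (by
          exact ne_top_of_le_ne_top ENNReal.one_ne_top tsub_le_self) (measure_ne_top _ _)),
        ENNReal.toReal_mul, ENNReal.toReal_mul,
        ENNReal.toReal_sub_of_le prob_le_one ENNReal.one_ne_top, ENNReal.toReal_one]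
    · rw [Set.disjoint_left]
      rintro ω ⟨h, -⟩ ⟨h', -⟩
      exact h' h

open Classical in
theorem prob_ex (hA : ∀ m, MeasurableSet (A m)) (hind : iIndepSet A μ) (N : ℕ) (B : Finset ℕ → Prop) :
    (μ {ω | B ((Finset.Icc 1 N).filter (fun m => ω ∈ A m))}).toReal =
      Ex (fun m => (μ (A m)).toReal) 0 N (fun T => if B T then 1 else 0) ∅ := by
  rw [← prob_ex_gen μ A hA hind 0 N B ∅]
  congr 2
  ext ω
  have e : Finset.Icc 1 N = Finset.Ioc 0 (0 + N) := by
    ext m
    simp only [Finset.mem_Icc, Finset.mem_Ioc]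
    omega
  rw [e]
  simp

/-- the number of the odd numbers in a window -/
theorem card_odd (x w : ℕ) : (w : ℝ) / 2 - 1 ≤ (((Finset.Ico x (x + w)).filter Odd).card : ℝ) := by
  have key : ∀ w : ℕ, w ≤ 2 * ((Finset.Ico x (x + w)).filter Odd).card + 1 ∧
      (Odd (x + w) → w ≤ 2 * ((Finset.Ico x (x + w)).filter Odd).card + 1) ∧
      (Even (x + w) → Odd x → w ≤ 2 * ((Finset.Ico x (x + w)).filter Odd).card) ∧
      (Odd (x + w) → Even x → w ≤ 2 * ((Finset.Ico x (x + w)).filter Odd).card + 1) ∧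
      (Even (x + w) → Even x → w ≤ 2 * ((Finset.Ico x (x + w)).filter Odd).card) ∧
      (Odd (x + w) → Odd x → w ≤ 2 * ((Finset.Ico x (x + w)).filter Odd).card) := by
    intro w
    induction w with
    | zero => simp
    | succ w ih =>
      have e : Finset.Ico x (x + (w + 1)) = insert (x + w) (Finset.Ico x (x + w)) := by
        ext m
        simp only [Finset.mem_Ico, Finset.mem_insert]
        omega
      rw [e, Finset.filter_insert]
      have hn : x + w ∉ (Finset.Ico x (x + w)).filter Odd := by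
        simp
      rcases Nat.even_or_odd (x + w) with h | h
      · have h' : ¬ Odd (x + w) := by rwa [Nat.not_odd_iff_even]
        rw [if_neg h']
        have h2 : Odd (x + (w + 1)) := by rw [← add_assoc]; exact h.add_one
        have h3 : ¬ Even (x + (w + 1)) := by rwa [Nat.not_even_iff_odd]
        obtain ⟨i1, i2, i3, i4, i5, i6⟩ := ih
        rcases Nat.even_or_odd x with hx | hx
        · have hx' : ¬ Odd x := by rwa [Nat.not_odd_iff_even]
          have := i5 h hx
          refine ⟨by omega, fun _ => by omega, fun h => absurd h h3, fun _ _ => by omega,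
            fun h => absurd h h3, fun _ h => absurd h hx'⟩
        · have hx' : ¬ Even x := by rwa [Nat.not_even_iff_odd]
          have := i3 h hx
          -- `x` odd, `x + w` even, so `w` is odd and `w + 1 ≤ 2 card`
          have hw : Odd w := by
            rcases Nat.even_or_odd w with hw | hw
            · exact absurd (hx.add_even hw) h'
            · exact hw
          obtain ⟨j, hj⟩ := hw
          refine ⟨by omega, fun _ => by omega, fun h => absurd h h3, fun _ h => absurd h hx',
            fun h => absurd h h3, fun _ _ => by omega⟩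
      · have h' : ¬ Even (x + w) := by rwa [Nat.not_even_iff_odd]
        rw [if_pos h, Finset.card_insert_of_notMem hn]
        have h2 : Even (x + (w + 1)) := by rw [← add_assoc]; exact h.add_one
        have h3 : ¬ Odd (x + (w + 1)) := by rwa [Nat.not_odd_iff_even]
        obtain ⟨i1, i2, i3, i4, i5, i6⟩ := ih
        refine ⟨by omega, fun h => absurd h h3, fun _ _ => by omega, fun h => absurd h h3,
          fun _ _ => by omega, fun h => absurd h h3⟩
  have h := (key w).1
  have h' : (w : ℝ) ≤ 2 * (((Finset.Ico x (x + w)).filter Odd).card : ℝ) + 1 := by exact_mod_cast h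
  linarith

open Classical in
theorem prob_window (hA : ∀ m, MeasurableSet (A m)) (hind : iIndepSet A μ) (x w : ℕ) (q : ℝ) (hq : 0 ≤ q)
    (h : ∀ m, x ≤ m → m < x + w → Odd m → q ≤ (μ (A m)).toReal) :
    (μ {ω | ∀ m, x ≤ m → m < x + w → ω ∉ A m}).toReal ≤ Real.exp (-(q * ((w : ℝ) / 2 - 1))) := by
  obtain ⟨I, hI⟩ : ∃ I, I = (Finset.Ico x (x + w)).filter Odd := ⟨_, rfl⟩
  have h1 : {ω | ∀ m, x ≤ m → m < x + w → ω ∉ A m} ⊆ ⋂ m ∈ I, (A m)ᶜ := by
    intro ω hω
    simp only [Set.mem_iInter, Set.mem_compl_iff]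
    intro m hm
    rw [hI, Finset.mem_filter, Finset.mem_Ico] at hm
    exact hω m hm.1.1 hm.1.2
  have h2 : μ (⋂ m ∈ I, (A m)ᶜ) = ∏ m ∈ I, μ ((A m)ᶜ) := by
    rw [iIndepSet_iff_iIndep] at hind
    exact hind.meas_biInter fun m _ =>
      (MeasurableSpace.measurableSet_generateFrom (Set.mem_singleton (A m))).compl
  have h3 : (μ {ω | ∀ m, x ≤ m → m < x + w → ω ∉ A m}).toReal ≤ ∏ m ∈ I, (μ ((A m)ᶜ)).toReal := by
    rw [← ENNReal.toReal_prod, ← h2]
    exact ENNReal.toReal_mono (measure_ne_top _ _) (measure_mono h1)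
  refine h3.trans ?_
  have h4 : ∏ m ∈ I, (μ ((A m)ᶜ)).toReal ≤ ∏ m ∈ I, Real.exp (-q) := by
    apply Finset.prod_le_prod
    · intro m _; exact ENNReal.toReal_nonneg
    · intro m hm
      rw [hI, Finset.mem_filter, Finset.mem_Ico] at hm
      rw [prob_compl_eq_one_sub (hA m), ENNReal.toReal_sub_of_le prob_le_one ENNReal.one_ne_top,
        ENNReal.toReal_one]
      have h5 := h m hm.1.1 hm.1.2 hm.2
      have h6 := Real.add_one_le_exp (-q)
      linarith
  refine h4.trans ?_
  rw [Finset.prod_const, ← Real.exp_nat_mul]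
  apply Real.exp_le_exp.2
  have h5 := card_odd x w
  rw [← hI] at h5
  have h6 := mul_le_mul_of_nonneg_left h5 hq
  linarith

/-- the exponential moment -/
theorem ex_two_pow (ρ : ℕ → ℝ) (s k : ℕ) (T : Finset ℕ) (hT : T ⊆ Finset.Icc 1 s) :
    Ex ρ s k (fun T' => (2 : ℝ) ^ T'.card) T = 2 ^ T.card * ∏ m ∈ Finset.Ioc s (s + k), (1 + ρ m) := by
  rw [ex_card ρ s k (fun j => (2 : ℝ) ^ j) T hT]
  have key : ∀ (k s j : ℕ), Ec ρ s k (fun j => (2 : ℝ) ^ j) j = 2 ^ j * ∏ m ∈ Finset.Ioc s (s + k), (1 + ρ m) := by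
    intro k
    induction k with
    | zero => intro s j; rw [Ec]; simp
    | succ k ih =>
      intro s j
      rw [Ec, AO, ih, ih]
      have hI : Finset.Ioc s (s + (k + 1)) = insert (s + 1) (Finset.Ioc (s + 1) (s + 1 + k)) := by
        ext m
        simp only [Finset.mem_Ioc, Finset.mem_insert]
        omega
      rw [hI, Finset.prod_insert (by simp)]
      ring
  exact key k s T.card

open Classical in
theorem prob_count (hA : ∀ m, MeasurableSet (A m)) (hind : iIndepSet A μ) (N : ℕ) (E : ℝ)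
    (hE : ∑ m ∈ Finset.Icc 1 N, (μ (A m)).toReal ≤ E) :
    (μ {ω | 3 * E ≤ (((Finset.Icc 1 N).filter (fun m => ω ∈ A m)).card : ℝ)}).toReal ≤ Real.exp (-E) := by
  have hE0 : 0 ≤ E := (Finset.sum_nonneg fun m _ => ENNReal.toReal_nonneg).trans hE
  rw [prob_ex μ A hA hind N (fun T => 3 * E ≤ (T.card : ℝ))]
  obtain ⟨ρ, hρ⟩ : ∃ ρ : ℕ → ℝ, ρ = fun m => (μ (A m)).toReal := ⟨_, rfl⟩
  rw [← hρ]
  have hρ01 : ∀ m, 0 ≤ ρ m ∧ ρ m ≤ 1 := by
    intro m; rw [hρ]; exact prob01 μ A m
  have h1 : Ex ρ 0 N (fun T => if 3 * E ≤ (T.card : ℝ) then 1 else 0) ∅ ≤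
      Ex ρ 0 N (fun T => Real.exp (-(3 * E * Real.log 2)) * (2 : ℝ) ^ T.card) ∅ := by
    apply ex_mono ρ hρ01
    intro U _ _
    split_ifs with hc
    · have e : (2 : ℝ) ^ (∅ ∪ U).card = Real.exp (((∅ ∪ U).card : ℝ) * Real.log 2) := by
        rw [Real.exp_nat_mul, Real.exp_log (by norm_num)]
      rw [e, ← Real.exp_add]
      apply Real.one_le_exp
      have := mul_le_mul_of_nonneg_right hc (Real.log_nonneg (show (1 : ℝ) ≤ 2 by norm_num))
      linarith
    · positivity
  refine h1.trans ?_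
  rw [ex_mul, ex_two_pow ρ 0 N ∅ (Finset.empty_subset _)]
  simp only [Finset.card_empty, pow_zero, one_mul]
  have h2 : ∏ m ∈ Finset.Ioc 0 (0 + N), (1 + ρ m) ≤ Real.exp E := by
    calc ∏ m ∈ Finset.Ioc 0 (0 + N), (1 + ρ m) ≤ ∏ m ∈ Finset.Ioc 0 (0 + N), Real.exp (ρ m) := by
          apply Finset.prod_le_prod
          · intro m _; linarith [(hρ01 m).1]
          · intro m _
            have := Real.add_one_le_exp (ρ m)
            linarith
      _ = Real.exp (∑ m ∈ Finset.Ioc 0 (0 + N), ρ m) := (Real.exp_sum _ _).symm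
      _ ≤ Real.exp E := by
          apply Real.exp_le_exp.2
          refine le_trans (le_of_eq ?_) hE
          rw [hρ]
          apply Finset.sum_congr _ fun _ _ => rfl
          ext m
          simp only [Finset.mem_Icc, Finset.mem_Ioc]
          omega
  calc Real.exp (-(3 * E * Real.log 2)) * ∏ m ∈ Finset.Ioc 0 (0 + N), (1 + ρ m)
      ≤ Real.exp (-(3 * E * Real.log 2)) * Real.exp E := mul_le_mul_of_nonneg_left h2 (by positivity)
    _ = Real.exp (-(3 * E * Real.log 2) + E) := (Real.exp_add _ _).symm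
    _ ≤ Real.exp (-E) := by
        apply Real.exp_le_exp.2
        have hl : (2 : ℝ) / 3 ≤ Real.log 2 := by
          have := Real.log_two_gt_d9
          linarith
        nlinarith

end

end Pool.Agent.L5helper30.RT
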